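import Pool.Agent.Y922.AP.Stm3
import Pool.Agent.Y100.AP.Ord

/-!
# The algebra of ordinates, for a general function
-/

set_option autoImplicit false

open Set Cardinal

namespace Pool.Agent.Y929.AQ

open Pool.Agent.Y922.AQ AlgebraicIndependent

/-- from the square of `a` to `a` -/
theorem t_SQA : S_SQA := by
  intro K n a y h
  refine Pool.Agent.Y100.AP.exch K _ _ h fun i => ?_
  have hmem : ∀ o : Option (Fin n), (o.elim a y : ℂ) ∈
      Algebra.adjoin K (range fun o : Option (Fin n) => (o.elim a y : ℂ)) := fun o =>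
    Algebra.subset_adjoin ⟨o, rfl⟩
  have hmem2 : (i.elim (a ^ 2) y : ℂ) ∈
      Algebra.adjoin K (range fun o : Option (Fin n) => (o.elim a y : ℂ)) := by
    cases i with
    | none => exact pow_mem (hmem none) 2
    | some i => exact hmem (some i)
  exact isAlgebraic_algebraMap (⟨_, hmem2⟩ :
    Algebra.adjoin K (range fun o : Option (Fin n) => (o.elim a y : ℂ)))

theorem t_ORD : S_ORD := by
  classical
  intro f hf K a h
  apply algebraicIndependent_of_finite_type
  intro t ht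
  have : Finite t := ht
  -- the points
  choose β hβ using fun γ : {γ : ℝ // 0 < γ ∧ ∃ β : ℝ, f ((β : ℂ) + (γ : ℂ) * Complex.I) = (a : ℂ)} =>
    γ.2.2
  obtain ⟨z, hz⟩ : ∃ z : {γ : ℝ // 0 < γ ∧ ∃ β : ℝ, f ((β : ℂ) + (γ : ℂ) * Complex.I) = (a : ℂ)} → ℂ,
      ∀ γ, z γ = (β γ : ℂ) + (γ.1 : ℂ) * Complex.I - 1 / 2 := ⟨_, fun _ => rfl⟩
  have hre : ∀ γ, (z γ).re = β γ - 1 / 2 := by
    intro γ
    rw [hz]
    simp
  have him : ∀ γ, (z γ).im = γ.1 := by
    intro γ
    rw [hz]
    simp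
  have hsq : ∀ u v : ℂ, u ^ 2 = v ^ 2 → u = v ∨ u = -v := fun u v huv => sq_eq_sq_iff_eq_or_eq_neg.1 huv
  obtain ⟨ι, hι⟩ : ∃ ι : Type, ι = (t ⊕ {γ : t // β γ.1 ≠ 1 / 2}) := ⟨_, rfl⟩
  subst hι
  obtain ⟨x, hx1, hx2⟩ : ∃ x : (t ⊕ {γ : t // β γ.1 ≠ 1 / 2}) → ℂ, (∀ γ, x (Sum.inl γ) = z γ.1 ^ 2) ∧
      ∀ γ, x (Sum.inr γ) = (starRingEnd ℂ (z γ.1.1)) ^ 2 :=
    ⟨Sum.elim (fun γ => z γ.1 ^ 2) (fun γ => (starRingEnd ℂ (z γ.1.1)) ^ 2), fun _ => rfl,
      fun _ => rfl⟩
  obtain ⟨y, hy1, hy2⟩ : ∃ y : (t ⊕ {γ : t // β γ.1 ≠ 1 / 2}) → ℂ,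
      (∀ γ, y (Sum.inl γ) = ((γ.1.1 : ℝ) : ℂ)) ∧
      ∀ γ, y (Sum.inr γ) = (starRingEnd ℂ (z γ.1.1)) ^ 2 :=
    ⟨Sum.elim (fun γ => ((γ.1.1 : ℝ) : ℂ)) (fun γ => (starRingEnd ℂ (z γ.1.1)) ^ 2), fun _ => rfl,
      fun _ => rfl⟩
  have hinj : Function.Injective x := by
    have key : ∀ γ γ' : t, z γ.1 ^ 2 = z γ'.1 ^ 2 → γ = γ' := by
      intro γ γ' hh
      rcases hsq _ _ hh with h1 | h1
      · have h2 := congrArg Complex.im h1
        rw [him, him] at h2
        exact Subtype.ext (Subtype.ext h2)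
      · have h2 := congrArg Complex.im h1
        rw [Complex.neg_im, him, him] at h2
        have := γ.1.2.1
        have := γ'.1.2.1
        linarith
    have key2 : ∀ (γ : t) (γ' : {γ : t // β γ.1 ≠ 1 / 2}),
        z γ.1 ^ 2 ≠ (starRingEnd ℂ (z γ'.1.1)) ^ 2 := by
      intro γ γ' hh
      rcases hsq _ _ hh with h1 | h1
      · have h2 := congrArg Complex.im h1
        rw [Complex.conj_im, him, him] at h2
        have := γ.1.2.1
        have := γ'.1.1.2.1
        linarith
      · have h2 := congrArg Complex.im h1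
        rw [Complex.neg_im, Complex.conj_im, neg_neg, him, him] at h2
        have h3 : γ = γ'.1 := Subtype.ext (Subtype.ext h2)
        have h4 := congrArg Complex.re h1
        rw [Complex.neg_re, Complex.conj_re, hre, hre, h3] at h4
        exact γ'.2 (by linarith)
    rintro (γ | γ) (γ' | γ') hh
    · rw [hx1, hx1] at hh
      rw [key _ _ hh]
    · rw [hx1, hx2] at hh
      exact absurd hh (key2 γ γ')
    · rw [hx2, hx1] at hh
      exact absurd hh.symm (key2 γ' γ)
    · rw [hx2, hx2, ← map_pow, ← map_pow] at hh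
      have h1 := (starRingEnd ℂ).injective hh
      rw [Subtype.ext (key _ _ h1)]
  -- the points are solutions
  have hxs : ∀ i, ∃ s : ℂ, f s = a ∧ x i = (s - 1 / 2) ^ 2 := by
    rintro (γ | γ)
    · exact ⟨_, hβ γ.1, by rw [hx1, hz]⟩
    · refine ⟨starRingEnd ℂ ((β γ.1.1 : ℂ) + (γ.1.1.1 : ℂ) * Complex.I), ?_, ?_⟩
      · rw [hf, hβ γ.1.1, Complex.conj_ofReal]
      · have h12 : starRingEnd ℂ (1 / 2 : ℂ) = 1 / 2 := by
          rw [map_div₀, map_one, map_ofNat]
        rw [hx2, hz, map_sub, h12]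
  have hxi : AlgebraicIndependent K x := by
    have e : Fin (Nat.card (t ⊕ {γ : t // β γ.1 ≠ 1 / 2})) ≃ (t ⊕ {γ : t // β γ.1 ≠ 1 / 2}) :=
      (Finite.equivFin _).symm
    have h1 := h _ (x ∘ e) (hinj.comp e.injective) (fun i => hxs (e i))
    exact (algebraicIndependent_equiv e).1 h1
  have halg : ∀ i, IsAlgebraic (Algebra.adjoin K (range y)) (x i) := by
    have hmem : ∀ i, y i ∈ Subalgebra.algebraicClosure (Algebra.adjoin K (range y)) ℂ := by
      intro i
      exact isAlgebraic_algebraMap (⟨y i, Algebra.subset_adjoin (mem_range_self i)⟩ :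
        Algebra.adjoin K (range y))
    have hI : Complex.I ∈ Subalgebra.algebraicClosure (Algebra.adjoin K (range y)) ℂ := by
      refine IsAlgebraic.of_pow (n := 2) (by norm_num) ?_
      rw [Complex.I_sq]
      exact (Subalgebra.algebraicClosure (Algebra.adjoin K (range y)) ℂ).neg_mem
        (one_mem _)
    rintro (γ | γ)
    · by_cases hb : β γ.1 = 1 / 2
      · have h1 : x (Sum.inl γ) = -(y (Sum.inl γ) ^ 2) := by
          rw [hx1, hy1, hz, hb]
          push_cast
          ring_nf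
          rw [Complex.I_sq]
          ring
        rw [h1]
        exact (Subalgebra.algebraicClosure (Algebra.adjoin K (range y)) ℂ).neg_mem
          (pow_mem (hmem _) 2)
      · have h1 : starRingEnd ℂ (z γ.1) ∈
            Subalgebra.algebraicClosure (Algebra.adjoin K (range y)) ℂ := by
          refine IsAlgebraic.of_pow (n := 2) (by norm_num) ?_
          have h2 := hmem (Sum.inr ⟨γ, hb⟩)
          rw [hy2] at h2
          exact h2
        have h2 : x (Sum.inl γ) =
            (starRingEnd ℂ (z γ.1) + (y (Sum.inl γ) * Complex.I + y (Sum.inl γ) * Complex.I)) ^ 2 := by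
          rw [hx1, hy1]
          congr 1
          apply Complex.ext
          · simp
          · simp only [Complex.add_im, Complex.conj_im, Complex.mul_im, Complex.ofReal_re,
              Complex.ofReal_im, Complex.I_re, Complex.I_im, him]
            ring
        rw [h2]
        exact pow_mem (add_mem h1 (add_mem (mul_mem (hmem _) hI) (mul_mem (hmem _) hI))) 2
    · have h1 := hmem (Sum.inr γ)
      rw [hy2] at h1
      rw [hx2]
      exact h1
  have hy := (Pool.Agent.Y100.AP.exch K x y hxi halg).comp Sum.inl Sum.inl_injective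
  convert hy using 1
  funext γ
  exact (hy1 γ).symm

end Pool.Agent.Y929.AQ
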